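import Mathlib.LinearAlgebra.Matrix.ConjTranspose
import Mathlib.Analysis.Complex.Basic
import Pool.Agent.Work.MP_807b32_lc.TS.Defs

/-!
Quantum query programs with a bounded work space, and the hard function on words.
-/

namespace Pool.Agent.Work.MP_807b32_lc.Q

open Matrix

/-- A quantum program on inputs `x : V → A`. The work space has the orthonormal basis `W`. At time
`t` the basis state `w` queries the variable `var t w`, and `amp t e a` lists the amplitudes of the
Kraus operator number `e` when the queried value is `a`. -/
structure QP (V A W E : Type) where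
  init : W → ℂ
  var : ℕ → W → V
  amp : ℕ → E → A → Matrix W W ℂ
  accept : Finset W

variable {V A W E : Type} [Fintype W] [DecidableEq W] [Fintype E]

/-- The Kraus operator number `e` of step `t` on the input `x`: its column `w` depends on the input
through the queried value only. -/
def QP.kraus (P : QP V A W E) (x : V → A) (t : ℕ) (e : E) : Matrix W W ℂ :=
  Matrix.of fun w' w => P.amp t e (x (P.var t w)) w' w

/-- The initial state is a unit vector and every step is a quantum channel on every input. -/
def QP.Valid (P : QP V A W E) : Prop :=
  ∑ w, ‖P.init w‖ ^ 2 = 1 ∧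
    ∀ x t, ∑ e, Matrix.conjTranspose (P.kraus x t e) * P.kraus x t e = 1

/-- The density matrix after `t` steps on the input `x`. -/
noncomputable def QP.state (P : QP V A W E) (x : V → A) : ℕ → Matrix W W ℂ
  | 0 => Matrix.of fun w w' => P.init w * star (P.init w')
  | t + 1 => ∑ e, P.kraus x t e * P.state x t * Matrix.conjTranspose (P.kraus x t e)

/-- The probability that a measurement after `T` steps gives an accepting basis state. -/
noncomputable def QP.prob (P : QP V A W E) (x : V → A) (T : ℕ) : ℝ :=
  ∑ w ∈ P.accept, (P.state x T w w).re

/-- After `T` steps the answer is correct with probability at least `γ` on every input. -/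
def QP.Computes (P : QP V A W E) (f : (V → A) → Prop) (T : ℕ) (γ : ℝ) : Prop :=
  ∀ x, (f x → γ ≤ P.prob x T) ∧ (¬ f x → P.prob x T ≤ 1 - γ)

/-- The hard function on `3 n b` bits, read as `3 n` words of `b` bits. -/
def HardW (n b : ℕ) (x : Fin 3 × Fin n → Fin b → Bool) : Prop :=
  TS.Hard (n * b) fun v => x (v.1, v.2.divNat) v.2.modNat

end Pool.Agent.Work.MP_807b32_lc.Q
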