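import Mathlib
import Pool.Agent.Work.MP_807b32_lc.Q.Defs
import Pool.Agent.Work.MP_807b32_lc.TS.Inv
import Mathlib.Analysis.Complex.ExponentialBounds

-- merged part: Pool.Agent.Work.MP_807b32_lc.Q.Mob
section
/-!
A bounded function of low degree is a short sum of bounded juntas (Moebius inversion).
-/

namespace Pool.Agent.Work.MP_807b32_lc.Q

open Finset
open scoped Classical

section
variable {I : Type}

/-- Moebius transform on the Boolean lattice. -/
noncomputable def mob (F : Finset I → ℂ) (B : Finset I) : ℂ :=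
  ∑ C ∈ B.powerset, (-1) ^ (B.card + C.card) * F C

theorem mob_insert (F : Finset I → ℂ) {a : I} {B : Finset I} (h : a ∉ B) :
    mob F (insert a B) = mob (fun C => F (insert a C)) B - mob F B := by
  rw [mob, Finset.sum_powerset_insert h, mob, mob, sub_eq_neg_add, ← Finset.sum_neg_distrib]
  congr 1
  · refine Finset.sum_congr rfl fun C _ => ?_
    rw [Finset.card_insert_of_notMem h]
    ring
  · refine Finset.sum_congr rfl fun C hC => ?_
    rw [Finset.card_insert_of_notMem h,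
      Finset.card_insert_of_notMem fun k => h (Finset.mem_powerset.1 hC k)]
    ring

theorem sum_mob (s : Finset I) : ∀ F : Finset I → ℂ, ∑ B ∈ s.powerset, mob F B = F s := by
  induction s using Finset.induction_on with
  | empty => intro F; simp [mob]
  | insert a s ha ih =>
    intro F
    rw [Finset.sum_powerset_insert ha, ← Finset.sum_add_distrib, ← ih fun C => F (insert a C)]
    refine Finset.sum_congr rfl fun B hB => ?_
    rw [mob_insert F fun k => ha (Finset.mem_powerset.1 hB k)]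
    ring

theorem mob_zero {F : Finset I → ℂ} {a : I} {B : Finset I} (h : a ∈ B)
    (hF : ∀ C, F (insert a C) = F C) : mob F B = 0 := by
  rw [← Finset.insert_erase h, mob_insert F (Finset.notMem_erase a B), funext hF, sub_self]

theorem norm_mob {F : Finset I → ℂ} (hF : ∀ C, ‖F C‖ ≤ 1) (B : Finset I) :
    ‖mob F B‖ ≤ 2 ^ B.card := by
  refine (norm_sum_le _ _).trans ((Finset.sum_le_card_nsmul _ _ 1 fun C _ => ?_).trans ?_)
  · rw [norm_mul, norm_pow, norm_neg, norm_one, one_pow, one_mul]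
    exact hF C
  · simp

end

variable {Γ I A : Type}

/-- The function depends on the parameter and on the coordinates in `S` only. -/
def Junta (S : Finset I) (g : Γ × (I → A) → ℂ) : Prop :=
  ∀ z z' : Γ × (I → A), z.1 = z'.1 → (∀ i ∈ S, z.2 i = z'.2 i) → g z = g z'

/-- Linear combinations of juntas of size at most `D`. -/
def Deg (Γ I A : Type) (D : ℕ) : Submodule ℂ (Γ × (I → A) → ℂ) :=
  Submodule.span ℂ {g | ∃ S : Finset I, S.card ≤ D ∧ Junta S g}

theorem Junta.mul {S S' : Finset I} {g g' : Γ × (I → A) → ℂ} (h : Junta S g) (h' : Junta S' g') :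
    Junta (S ∪ S') (g * g') := fun z z' e k => by
  rw [Pi.mul_apply, Pi.mul_apply, h z z' e fun i hi => k i (mem_union_left _ hi),
    h' z z' e fun i hi => k i (mem_union_right _ hi)]

theorem Deg.mono {D D' : ℕ} (h : D ≤ D') : Deg Γ I A D ≤ Deg Γ I A D' :=
  Submodule.span_mono fun _ ⟨S, h1, h2⟩ => ⟨S, h1.trans h, h2⟩

theorem Deg.mul {S : Finset I} {g p : Γ × (I → A) → ℂ} {D c : ℕ} (h : Junta S g) (hS : S.card ≤ c)
    (hp : p ∈ Deg Γ I A D) : g * p ∈ Deg Γ I A (D + c) := by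
  refine Submodule.span_induction (p := fun p _ => g * p ∈ Deg Γ I A (D + c)) ?_ ?_ ?_ ?_ hp
  · rintro p ⟨S', h1, h2⟩
    exact Submodule.subset_span ⟨_, (Finset.card_union_le _ _).trans (by omega), h.mul h2⟩
  · rw [mul_zero]
    exact Submodule.zero_mem _
  · intro x y _ _ hx hy
    rw [mul_add]
    exact Submodule.add_mem _ hx hy
  · intro a x _ hx
    rw [mul_smul_comm]
    exact Submodule.smul_mem _ _ hx

variable [Zero A]

/-- Kill the coordinates outside `B`. -/
noncomputable def msk (B : Finset I) (z : Γ × (I → A)) : Γ × (I → A) :=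
  (z.1, fun i => if i ∈ B then z.2 i else 0)

/-- The component of `p` on `B`. -/
noncomputable def cmp (p : Γ × (I → A) → ℂ) (B : Finset I) (z : Γ × (I → A)) : ℂ :=
  mob (fun C => p (msk C z)) B

theorem cmp_junta (p : Γ × (I → A) → ℂ) (B : Finset I) : Junta B (cmp p B) := by
  intro z z' e k
  refine Finset.sum_congr rfl fun C hC => ?_
  have : msk C z = msk C z' := Prod.ext e (funext fun i => by
    by_cases hi : i ∈ C
    · simp only [msk, if_pos hi]
      exact k i (Finset.mem_powerset.1 hC hi)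
    · simp only [msk, if_neg hi])
  simp only [this]

theorem cmp_zero {p : Γ × (I → A) → ℂ} {D : ℕ} (hp : p ∈ Deg Γ I A D) {B : Finset I}
    (hB : D < B.card) (z : Γ × (I → A)) : cmp p B z = 0 := by
  refine Submodule.span_induction (p := fun p _ => cmp p B z = 0) ?_ ?_ ?_ ?_ hp
  · rintro p ⟨S, h1, h2⟩
    obtain ⟨a, ha, ha'⟩ := Finset.exists_mem_notMem_of_card_lt_card (h1.trans_lt hB)
    refine mob_zero ha fun C => h2 _ _ rfl fun i hi => ?_
    have : i ≠ a := fun e => ha' (e ▸ hi)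
    simp [msk, this]
  · simp [cmp, mob]
  · intro x y _ _ hx hy
    rw [← add_zero 0, ← congrArg₂ (· + ·) hx hy]
    simp only [cmp, mob, Pi.add_apply, mul_add, Finset.sum_add_distrib]
  · intro a x _ hx
    rw [← mul_zero a, ← hx]
    simp only [cmp, mob, Pi.smul_apply, smul_eq_mul, Finset.mul_sum]
    exact Finset.sum_congr rfl fun C _ => by ring

variable [Fintype I]

theorem sum_cmp {p : Γ × (I → A) → ℂ} {D : ℕ} (hp : p ∈ Deg Γ I A D) (z : Γ × (I → A)) :
    ∑ B ∈ univ.filter (fun B : Finset I => B.card ≤ D), cmp p B z = p z := by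
  rw [Finset.sum_filter_of_ne fun B _ h => not_lt.1 fun k => h (cmp_zero hp k z),
    ← Finset.powerset_univ]
  refine (sum_mob univ _).trans (congrArg p ?_)
  simp [msk]

/-- The total weight of the expansion. -/
noncomputable def wt (I : Type) [Fintype I] (D : ℕ) : ℝ :=
  ∑ B ∈ univ.filter (fun B : Finset I => B.card ≤ D), 2 ^ B.card

theorem wt_le (D : ℕ) {r : ℝ} (hr : 1 ≤ r) :
    wt I D ≤ r ^ D * (1 + 2 / r) ^ Fintype.card I := by
  have h0 : 0 < r := by linarith
  have h1 := Finset.sum_pow_mul_eq_add_pow (2 / r) 1 (univ : Finset I)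
  rw [add_comm, ← Finset.card_univ, ← h1, Finset.mul_sum, Finset.powerset_univ, wt,
    Finset.sum_filter]
  refine Finset.sum_le_sum fun B _ => ?_
  split_ifs with h
  · rw [one_pow, mul_one, div_pow, mul_div_assoc', le_div_iff₀ (by positivity), mul_comm]
    exact mul_le_mul_of_nonneg_right (pow_le_pow_right₀ hr h) (by positivity)
  · positivity

theorem one_le_wt (D : ℕ) : 1 ≤ wt I D := by
  have := Finset.single_le_sum (f := fun B : Finset I => (2 : ℝ) ^ B.card)
    (s := univ.filter (fun B : Finset I => B.card ≤ D)) (fun _ _ => by positivity)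
    (a := ∅) (by simp)
  simpa [wt] using this

end Pool.Agent.Work.MP_807b32_lc.Q
end

-- merged part: Pool.Agent.Work.MP_807b32_lc.Q.Chan
section
/-!
Entries of compositions of channels are bounded and have low degree; cutting the run in segments.
-/

namespace Pool.Agent.Work.MP_807b32_lc.Q

open Finset Matrix
open scoped Classical

variable {W E : Type} [Fintype W] [DecidableEq W] [Fintype E]

/-- The state after `l` steps, starting from `ρ` at time `s`. -/
noncomputable def ev (K : ℕ → E → Matrix W W ℂ) (s : ℕ) (ρ : Matrix W W ℂ) : ℕ → Matrix W W ℂ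
  | 0 => ρ
  | l + 1 => ∑ e, K (s + l) e * ev K s ρ l * (K (s + l) e)ᴴ

omit [DecidableEq W] in
theorem ev_add (K : ℕ → E → Matrix W W ℂ) (s : ℕ) (ρ : Matrix W W ℂ) (l l' : ℕ) :
    ev K s ρ (l + l') = ev K (s + l) (ev K s ρ l) l' := by
  induction l' with
  | zero => rfl
  | succ l' ih => rw [← add_assoc, ev, ev, ih, add_assoc s]

omit [DecidableEq W] in
theorem ev_sum {U : Type} [Fintype U] (K : ℕ → E → Matrix W W ℂ) (s : ℕ) (a : U → ℂ)
    (M : U → Matrix W W ℂ) (l : ℕ) : ev K s (∑ u, a u • M u) l = ∑ u, a u • ev K s (M u) l := by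
  induction l with
  | zero => rfl
  | succ l ih =>
    simp only [ev, ih, Finset.mul_sum, Finset.sum_mul, Finset.smul_sum, Matrix.mul_smul,
      Matrix.smul_mul]
    exact Finset.sum_comm

theorem ev_lin (K : ℕ → E → Matrix W W ℂ) (s : ℕ) (ρ : Matrix W W ℂ) (l : ℕ) (c d : W) :
    ev K s ρ l c d = ∑ u : W × W, ρ u.1 u.2 * ev K s (Matrix.single u.1 u.2 1) l c d := by
  have h : ρ = ∑ u : W × W, ρ u.1 u.2 • Matrix.single u.1 u.2 (1 : ℂ) := by
    rw [Fintype.sum_prod_type]
    simp only [Matrix.smul_single, smul_eq_mul, mul_one]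
    exact Matrix.matrix_eq_sum_single ρ
  conv_lhs => rw [h, ev_sum]
  simp only [Matrix.sum_apply, Matrix.smul_apply, smul_eq_mul]

/-- Square of the Hilbert-Schmidt norm. -/
noncomputable def nsq {ι : Type} [Fintype ι] (U : Matrix W ι ℂ) : ℝ := ∑ i, ∑ w, ‖U w i‖ ^ 2

omit [DecidableEq W] in
theorem nsq_eq {ι : Type} [Fintype ι] (U : Matrix W ι ℂ) : (nsq U : ℂ) = trace (Uᴴ * U) := by
  simp only [nsq, Matrix.trace, Matrix.diag, Matrix.mul_apply, Matrix.conjTranspose_apply,
    Complex.ofReal_sum, Complex.ofReal_pow, Complex.star_def, Complex.conj_mul']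

/-- The unit ball of the trace norm. -/
def TB (ρ : Matrix W W ℂ) : Prop :=
  ∃ (ι : Type) (_ : Fintype ι) (U V : Matrix W ι ℂ), ρ = U * Vᴴ ∧ nsq U ≤ 1 ∧ nsq V ≤ 1

theorem nsq_step {ι : Type} [Fintype ι] {K : E → Matrix W W ℂ} (hK : ∑ e, (K e)ᴴ * K e = 1)
    (U : Matrix W ι ℂ) : nsq (Matrix.of fun w (p : E × ι) => (K p.1 * U) w p.2) = nsq U := by
  have h1 : nsq (Matrix.of fun w (p : E × ι) => (K p.1 * U) w p.2) = ∑ e, nsq (K e * U) := by
    simp only [nsq, Fintype.sum_prod_type, Matrix.of_apply]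
  have h2 : ∀ e, (K e * U)ᴴ * (K e * U) = Uᴴ * ((K e)ᴴ * K e) * U := fun e => by
    simp only [Matrix.conjTranspose_mul, Matrix.mul_assoc]
  apply Complex.ofReal_injective
  rw [h1, Complex.ofReal_sum]
  simp only [nsq_eq, h2]
  rw [← Matrix.trace_sum, ← Matrix.sum_mul, ← Matrix.mul_sum, hK, Matrix.mul_one]

theorem TB.step {K : E → Matrix W W ℂ} (hK : ∑ e, (K e)ᴴ * K e = 1) {ρ : Matrix W W ℂ}
    (h : TB ρ) : TB (∑ e, K e * ρ * (K e)ᴴ) := by
  obtain ⟨ι, _, U, V, rfl, h1, h2⟩ := h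
  refine ⟨E × ι, inferInstance, Matrix.of fun w p => (K p.1 * U) w p.2,
    Matrix.of fun w p => (K p.1 * V) w p.2, ?_, (nsq_step hK U).trans_le h1,
    (nsq_step hK V).trans_le h2⟩
  have h3 : ∀ e, K e * (U * Vᴴ) * (K e)ᴴ = (K e * U) * (K e * V)ᴴ := fun e => by
    simp only [Matrix.conjTranspose_mul, Matrix.mul_assoc]
  ext w w'
  rw [Matrix.sum_apply, Matrix.mul_apply, Fintype.sum_prod_type]
  refine Finset.sum_congr rfl fun e _ => ?_
  rw [h3, Matrix.mul_apply]
  rfl

omit [DecidableEq W] in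
theorem TB.entry {ρ : Matrix W W ℂ} (h : TB ρ) (c d : W) : ‖ρ c d‖ ≤ 1 := by
  obtain ⟨ι, _, U, V, rfl, h1, h2⟩ := h
  have k : ∀ (U : Matrix W ι ℂ) c, ∑ i, ‖U c i‖ ^ 2 ≤ nsq U := fun U c =>
    Finset.sum_le_sum fun i _ => Finset.single_le_sum (f := fun w => ‖U w i‖ ^ 2)
      (fun _ _ => sq_nonneg _) (mem_univ c)
  have h3 : ∑ i, ‖U c i * Vᴴ i d‖ ≤ ∑ i, (‖U c i‖ ^ 2 + ‖V d i‖ ^ 2) / 2 :=
    Finset.sum_le_sum fun i _ => by
      rw [norm_mul, Matrix.conjTranspose_apply, norm_star]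
      nlinarith only [sq_nonneg (‖U c i‖ - ‖V d i‖)]
  rw [← Finset.sum_div, Finset.sum_add_distrib] at h3
  rw [Matrix.mul_apply]
  linarith [norm_sum_le univ fun i => U c i * Vᴴ i d, k U c, k V d]

theorem tb_single (a b : W) : TB (Matrix.single a b (1 : ℂ)) := by
  have k : ∀ a : W, nsq (Matrix.of fun w (_ : Unit) => if a = w then (1 : ℂ) else 0) ≤ 1 :=
    fun a => by simp [nsq, apply_ite]
  refine ⟨Unit, inferInstance, _, _, ?_, k a, k b⟩
  ext w w'
  by_cases h : a = w <;> by_cases h' : b = w' <;> simp [Matrix.mul_apply, Matrix.single, h, h']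

theorem TB.ev {K : ℕ → E → Matrix W W ℂ} (hK : ∀ t, ∑ e, (K t e)ᴴ * K t e = 1) (s : ℕ)
    {ρ : Matrix W W ℂ} (h : TB ρ) (l : ℕ) : TB (ev K s ρ l) := by
  induction l with
  | zero => exact h
  | succ l ih => exact ih.step (hK _)

variable {Γ I A : Type}

omit [DecidableEq W] in
theorem ev_deg {K : Γ × (I → A) → ℕ → E → Matrix W W ℂ} {v : ℕ → W → I}
    (hv : ∀ t e w' w, Junta {v t w} fun z => K z t e w' w) (s : ℕ) (ρ : Matrix W W ℂ) (l : ℕ) :
    ∀ c d, (fun z => ev (K z) s ρ l c d) ∈ Deg Γ I A (2 * l) := by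
  induction l with
  | zero => exact fun c d => Submodule.subset_span ⟨∅, le_rfl, fun _ _ _ _ => rfl⟩
  | succ l ih =>
    intro c d
    have e : (fun z => ev (K z) s ρ (l + 1) c d) = ∑ e, ∑ b, ∑ a,
        ((fun z => K z (s + l) e c a) * fun z => star (K z (s + l) e d b)) *
          fun z => ev (K z) s ρ l a b := by
      funext z
      simp only [ev, Matrix.sum_apply, Matrix.mul_apply, Finset.sum_apply, Pi.mul_apply,
        Matrix.conjTranspose_apply, Finset.sum_mul]
      refine Finset.sum_congr rfl fun e _ => Finset.sum_congr rfl fun b _ =>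
        Finset.sum_congr rfl fun a _ => by ring
    rw [e]
    refine Submodule.sum_mem _ fun e _ => Submodule.sum_mem _ fun b _ =>
      Submodule.sum_mem _ fun a _ => ?_
    refine Deg.mul (c := 2) ((hv (s + l) e c a).mul (S' := {v (s + l) b})
      fun z z' h k => congrArg star (hv (s + l) e d b z z' h k)) ?_ (ih a b)
    exact (Finset.card_union_le _ _).trans (by simp)

variable [Fintype Γ] [Fintype I] [Fintype A] [DecidableEq I]

/-- Small correlation with products of `j` bounded juntas of size at most `D`. -/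
def Small (D j : ℕ) (χ : Γ × (I → A) → ℂ) (ε : ℝ) : Prop :=
  ∀ (g : Fin j → Γ × (I → A) → ℂ) (B : Fin j → Finset I), (∀ t, (B t).card ≤ D) →
    (∀ t, Junta (B t) (g t)) → (∀ t z, ‖g t z‖ ≤ 1) → ‖∑ z, χ z * ∏ t, g t z‖ ≤ ε

theorem Small.mul {D j : ℕ} {χ q : Γ × (I → A) → ℂ} {ε : ℝ} (h : Small D (j + 1) χ ε)
    {S : Finset I} (hS : S.card ≤ D) (hq : Junta S q) (h1 : ∀ z, ‖q z‖ ≤ 1) :
    Small D j (fun z => χ z * q z) ε := by
  intro g B k1 k2 k3
  have := h (Fin.cons q g) (Fin.cons S B) (Fin.cases hS k1) (Fin.cases hq k2) (Fin.cases h1 k3)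
  simpa only [Fin.prod_univ_succ, Fin.cons_zero, Fin.cons_succ, mul_assoc] using this

theorem chain [Zero A] {K : Γ × (I → A) → ℕ → E → Matrix W W ℂ} {v : ℕ → W → I}
    (hK : ∀ z t, ∑ e, (K z t e)ᴴ * K z t e = 1)
    (hv : ∀ t e w' w, Junta {v t w} fun z => K z t e w' w) {ρ : Matrix W W ℂ}
    (hρ : ∀ c d, ‖ρ c d‖ ≤ 1) (T d : ℕ) {ε : ℝ} (j : ℕ) :
    ∀ χ : Γ × (I → A) → ℂ, Small (2 * d) j χ ε → ∀ a b,
      ‖∑ z, χ z * ev (K z) 0 ρ (min (j * d) T) a b‖ ≤
        ((Fintype.card W : ℝ) ^ 2 * wt I (2 * d)) ^ j * ε := by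
  induction j with
  | zero =>
    intro χ h a b
    have := h Fin.elim0 Fin.elim0 (fun t => t.elim0) (fun t => t.elim0) fun t => t.elim0
    simp only [Finset.univ_eq_empty, Finset.prod_empty, mul_one] at this
    simp only [zero_mul, Nat.zero_min, ev, pow_zero, one_mul]
    rw [← Finset.sum_mul, norm_mul]
    exact (mul_le_of_le_one_right (norm_nonneg _) (hρ a b)).trans this
  | succ j ih =>
    intro χ h a b
    obtain ⟨l, hl, e⟩ : ∃ l ≤ d, min ((j + 1) * d) T = min (j * d) T + l :=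
      ⟨min ((j + 1) * d) T - min (j * d) T, by rw [add_mul]; omega, by rw [add_mul]; omega⟩
    set p : W × W → Γ × (I → A) → ℂ := fun u z =>
      ev (K z) (0 + min (j * d) T) (Matrix.single u.1 u.2 1) l a b with hp
    have hp1 : ∀ u, p u ∈ Deg Γ I A (2 * d) := fun u =>
      Deg.mono (by omega) (ev_deg hv _ _ l a b)
    have hp2 : ∀ u z, ‖p u z‖ ≤ 1 := fun u z => ((tb_single _ _).ev (hK z) _ l).entry a b
    have e1 : ∑ z, χ z * ev (K z) 0 ρ (min ((j + 1) * d) T) a b =
        ∑ u : W × W, ∑ B ∈ univ.filter (fun B : Finset I => B.card ≤ 2 * d), 2 ^ B.card *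
          ∑ z, (χ z * (cmp (p u) B z / 2 ^ B.card)) * ev (K z) 0 ρ (min (j * d) T) u.1 u.2 := by
      simp only [Finset.mul_sum]
      rw [Finset.sum_congr rfl fun u _ => Finset.sum_comm, Finset.sum_comm]
      refine Finset.sum_congr rfl fun z _ => ?_
      rw [e, ev_add, ev_lin, Finset.mul_sum]
      refine Finset.sum_congr rfl fun u _ => ?_
      change χ z * (_ * p u z) = _
      rw [← sum_cmp (hp1 u) z, Finset.mul_sum, Finset.mul_sum]
      refine Finset.sum_congr (by congr) fun B _ => ?_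
      field_simp
    rw [e1]
    set R := ((Fintype.card W : ℝ) ^ 2 * wt I (2 * d)) ^ j * ε with hR
    have h2 : ∀ u : W × W, ‖∑ B ∈ univ.filter (fun B : Finset I => B.card ≤ 2 * d), 2 ^ B.card *
        ∑ z, (χ z * (cmp (p u) B z / 2 ^ B.card)) * ev (K z) 0 ρ (min (j * d) T) u.1 u.2‖ ≤
        wt I (2 * d) * R := by
      intro u
      refine (norm_sum_le _ _).trans ?_
      rw [wt, Finset.sum_mul]
      refine le_trans (Finset.sum_le_sum fun B hB => ?_) (le_of_eq (by congr))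
      rw [norm_mul, norm_pow, Complex.norm_ofNat]
      refine mul_le_mul_of_nonneg_left (ih _ (h.mul (Finset.mem_filter.1 hB).2
        (fun z z' k k' => by rw [cmp_junta _ _ z z' k k']) fun z => ?_) _ _) (by positivity)
      rw [norm_div, norm_pow, Complex.norm_ofNat, div_le_one (by positivity)]
      exact norm_mob (fun C => hp2 u _) B
    refine (norm_sum_le _ _).trans ((Finset.sum_le_card_nsmul _ _ _ fun u _ => h2 u).trans
      (le_of_eq ?_))
    rw [hR, nsmul_eq_mul, Finset.card_univ, Fintype.card_prod, Nat.cast_mul]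
    ring

end Pool.Agent.Work.MP_807b32_lc.Q
end

-- merged part: Pool.Agent.Work.MP_807b32_lc.Q.Cube
section
/-!
Repeated Cauchy-Schwarz: correlation with a product of bounded functions, each invariant under
its own group of translations.
-/

namespace Pool.Agent.Work.MP_807b32_lc.Q

open Finset
open scoped Classical

variable {Γ X : Type} [AddCommGroup X]

/-- Translation of the second component. -/
def sh (z : Γ × X) (h : X) : Γ × X := (z.1, z.2 + h)

theorem sh_sh (z : Γ × X) (h k : X) : sh (sh z h) k = sh z (h + k) := by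
  simp [sh, add_assoc]

theorem sh_comm (z : Γ × X) (h k : X) : sh (sh z h) k = sh (sh z k) h := by
  rw [sh_sh, sh_sh, add_comm]

theorem sh_zero (z : Γ × X) : sh z 0 = z := by simp [sh]

variable [Fintype Γ] [Fintype X]

theorem sum_sh {M : Type} [AddCommMonoid M] (F : Γ × X → M) (h : X) :
    ∑ z, F (sh z h) = ∑ z, F z :=
  Fintype.sum_equiv ((Equiv.refl Γ).prodCongr (Equiv.addRight h)) _ _ fun _ => rfl

theorem cs_step (φ : X →+ X) (F g : Γ × X → ℂ) (hg : ∀ z, ‖g z‖ ≤ 1)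
    (hi : ∀ z h, g (sh z (φ h)) = g z) :
    (Fintype.card X : ℝ) * ‖∑ z, F z * g z‖ ^ 2 ≤
      Fintype.card (Γ × X) * ∑ h, ‖∑ z, F z * star (F (sh z (φ h)))‖ := by
  have hN : (0 : ℝ) < Fintype.card X := Nat.cast_pos.2 Fintype.card_pos
  have h1 : (Fintype.card X : ℂ) * ∑ z, F z * g z = ∑ z, g z * ∑ h, F (sh z (φ h)) := by
    simp only [Finset.mul_sum]
    rw [Finset.sum_comm (f := fun z h => g z * F (sh z (φ h)))]
    rw [← Finset.mul_sum, ← Finset.card_univ, ← nsmul_eq_mul, ← Finset.sum_const]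
    refine Finset.sum_congr rfl fun h _ => ?_
    rw [← sum_sh (fun z => F z * g z) (φ h)]
    exact Finset.sum_congr rfl fun z _ => by rw [hi, mul_comm]
  have h2 : (Fintype.card X : ℝ) * ‖∑ z, F z * g z‖ ≤ ∑ z, ‖∑ h, F (sh z (φ h))‖ := by
    have : (Fintype.card X : ℝ) * ‖∑ z, F z * g z‖ =
        ‖(Fintype.card X : ℂ) * ∑ z, F z * g z‖ := by rw [norm_mul, Complex.norm_natCast]
    rw [this, h1]
    refine (norm_sum_le _ _).trans (Finset.sum_le_sum fun z _ => ?_)
    rw [norm_mul]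
    exact mul_le_of_le_one_left (norm_nonneg _) (hg z)
  have h3 : (∑ z, ‖∑ h, F (sh z (φ h))‖) ^ 2 ≤
      Fintype.card (Γ × X) * ∑ z, ‖∑ h, F (sh z (φ h))‖ ^ 2 := sq_sum_le_card_mul_sum_sq
  have h4 : ((∑ z, ‖∑ h, F (sh z (φ h))‖ ^ 2 : ℝ) : ℂ) =
      (Fintype.card X : ℂ) * ∑ h, ∑ z, F z * star (F (sh z (φ h))) := by
    have e1 : ∀ z, ((‖∑ h, F (sh z (φ h))‖ ^ 2 : ℝ) : ℂ) =
        ∑ h, ∑ k, F (sh z (φ h)) * star (F (sh (sh z (φ h)) (φ k))) := by
      intro z
      rw [Complex.ofReal_pow, ← Complex.mul_conj', map_sum, Finset.sum_mul]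
      refine Finset.sum_congr rfl fun h _ => ?_
      rw [Finset.mul_sum]
      refine (Fintype.sum_equiv (Equiv.addLeft h) _ _ fun k => ?_).symm
      rw [sh_sh, ← map_add]
      rfl
    rw [Complex.ofReal_sum, Finset.sum_congr rfl fun z _ => e1 z, Finset.sum_comm,
      ← Finset.card_univ, ← nsmul_eq_mul, ← Finset.sum_const]
    refine Finset.sum_congr rfl fun h _ => ?_
    rw [Finset.sum_comm]
    exact Finset.sum_congr rfl fun k _ =>
      sum_sh (fun z => F z * star (F (sh z (φ k)))) (φ h)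
  have h5 : ∑ z, ‖∑ h, F (sh z (φ h))‖ ^ 2 ≤
      Fintype.card X * ∑ h, ‖∑ z, F z * star (F (sh z (φ h)))‖ := by
    have := congrArg norm h4
    rw [Complex.norm_real, Real.norm_of_nonneg (by positivity), norm_mul,
      Complex.norm_natCast] at this
    rw [this]
    exact mul_le_mul_of_nonneg_left (norm_sum_le _ _) hN.le
  have h6 := (pow_le_pow_left₀ (by positivity) h2 2).trans
    (h3.trans (mul_le_mul_of_nonneg_left h5 (by (clear * - ; positivity))))
  refine le_of_mul_le_mul_left ?_ hN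
  calc _ = ((Fintype.card X : ℝ) * ‖∑ z, F z * g z‖) ^ 2 := by ring
    _ ≤ _ := h6
    _ = _ := by ring

/-- Products of translates of `χ` almost cancel if one translate occurs once. -/
def Bias2 (χ : Γ × X → ℝ) (β : ℝ) : Prop :=
  ∀ (ι : Type) [Fintype ι] (δ : ι → X) (i₀ : ι), (∀ j, j ≠ i₀ → δ j ≠ δ i₀) →
    |∑ z, ∏ i, χ (sh z (δ i))| ≤ β * Fintype.card ι * Fintype.card (Γ × X)

theorem cube_aux [Nonempty Γ] {χ : Γ × X → ℝ} {β Q : ℝ} (hχ : ∀ z, |χ z| ≤ 1) (hB : Bias2 χ β)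
    (hβ : 0 ≤ β) (hQ : 0 < Q) (p : ℕ) :
    ∀ (φ : Fin p → X →+ X),
      (∀ t v, ((univ.filter fun h => φ t h = v).card : ℝ) * Q ≤ Fintype.card X) →
      ∀ (g : Fin p → Γ × X → ℂ), (∀ t z, ‖g t z‖ ≤ 1) → (∀ t z h, g t (sh z (φ t h)) = g t z) →
      ∀ (ι : Type) [Fintype ι] (δ : ι → X) (i₀ : ι), (∀ j, j ≠ i₀ → δ j ≠ δ i₀) →
        (‖∑ z, ((∏ i, χ (sh z (δ i)) : ℝ) : ℂ) * ∏ t, g t z‖ / Fintype.card (Γ × X)) ^ 2 ^ p ≤
          Fintype.card ι * ((2 ^ p - 1) / Q + 2 ^ p * β) := by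
  have hN : (0 : ℝ) < Fintype.card X := Nat.cast_pos.2 Fintype.card_pos
  have hO : (0 : ℝ) < Fintype.card (Γ × X) := Nat.cast_pos.2 Fintype.card_pos
  induction p with
  | zero =>
    intro φ _ g _ _ ι _ δ i₀ hδ
    simp only [Finset.univ_eq_empty, Finset.prod_empty, mul_one, pow_zero, pow_one, sub_self,
      zero_div, zero_add, one_mul]
    rw [← Complex.ofReal_sum, Complex.norm_real, Real.norm_eq_abs, div_le_iff₀ hO, mul_comm _ β]
    exact hB ι δ i₀ hδ
  | succ p ih =>
    intro φ hφ g hg hi ι _ δ i₀ hδ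
    set F : Γ × X → ℂ := fun z => ((∏ i, χ (sh z (δ i)) : ℝ) : ℂ) * ∏ t : Fin p, g t.succ z
      with hF
    have hF1 : ∀ z, ‖F z‖ ≤ 1 := fun z => by
      rw [hF, norm_mul, Complex.norm_real, Real.norm_eq_abs, Finset.abs_prod, norm_prod]
      exact mul_le_one₀ (Finset.prod_le_one (fun _ _ => abs_nonneg _) fun _ _ => hχ _)
        (by positivity) (Finset.prod_le_one (fun _ _ => norm_nonneg _) fun _ _ => hg _ _)
    have e0 : ∑ z, ((∏ i, χ (sh z (δ i)) : ℝ) : ℂ) * ∏ t, g t z = ∑ z, F z * g 0 z :=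
      Finset.sum_congr rfl fun z _ => by rw [hF, Fin.prod_univ_succ]; ring
    set b : X → ℝ := fun h => ‖∑ z, F z * star (F (sh z (φ 0 h)))‖ / Fintype.card (Γ × X) with hb
    have hb0 : ∀ h, 0 ≤ b h := fun h => by positivity
    have hb1 : ∀ h, b h ≤ 1 := fun h => by
      rw [hb, div_le_one hO]
      refine (norm_sum_le _ _).trans ?_
      rw [← Finset.card_univ, ← mul_one ((univ : Finset (Γ × X)).card : ℝ), ← nsmul_eq_mul,
        ← Finset.sum_const]
      refine Finset.sum_le_sum fun z _ => ?_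
      rw [norm_mul, norm_star]
      exact mul_le_one₀ (hF1 _) (norm_nonneg _) (hF1 _)
    set c : ℝ := (2 * Fintype.card ι) * ((2 ^ p - 1) / Q + 2 ^ p * β) with hc
    have hc0 : 0 ≤ c := by
      have : (0 : ℝ) ≤ 2 ^ p - 1 := sub_nonneg.2 (one_le_pow₀ one_le_two)
      (clear * - this hQ hβ; positivity)
    have hb2 : ∀ h, (∀ j, δ j + φ 0 h ≠ δ i₀) → b h ^ 2 ^ p ≤ c := fun h hh => by
      have k := ih (fun t => φ t.succ) (fun t => hφ t.succ)
        (fun t z => g t.succ z * star (g t.succ (sh z (φ 0 h))))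
        (fun t z => by
          rw [norm_mul, norm_star]
          exact mul_le_one₀ (hg _ _) (norm_nonneg _) (hg _ _))
        (fun t z k => by rw [hi, sh_comm, hi])
        (ι ⊕ ι) (Sum.elim δ fun j => φ 0 h + δ j) (Sum.inl i₀) (by
          rintro (j | j) hj
          · exact hδ j fun e => hj (e ▸ rfl)
          · exact fun e => hh j ((add_comm _ _).trans e))
      rw [Fintype.card_sum, Nat.cast_add, ← two_mul] at k
      refine le_of_eq_of_le ?_ k
      refine congrArg (fun s : ℂ => (‖s‖ / (Fintype.card (Γ × X) : ℝ)) ^ 2 ^ p) ?_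
      refine Finset.sum_congr rfl fun z _ => ?_
      simp only [hF, Fintype.prod_sum_type, Sum.elim_inl, Sum.elim_inr, sh_sh, Complex.star_def,
        map_mul, map_prod, Finset.prod_mul_distrib, Complex.ofReal_mul, Complex.conj_ofReal]
      ring
    have hbad : ((univ.filter fun h => ∃ j, δ j + φ 0 h = δ i₀).card : ℝ) ≤
        Fintype.card ι * (Fintype.card X / Q) := by
      have s1 : (univ.filter fun h => ∃ j, δ j + φ 0 h = δ i₀) ⊆
          univ.biUnion fun j => univ.filter fun h => φ 0 h = δ i₀ - δ j := by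
        intro h hh
        obtain ⟨j, hj⟩ := (Finset.mem_filter.1 hh).2
        exact Finset.mem_biUnion.2 ⟨j, mem_univ _,
          Finset.mem_filter.2 ⟨mem_univ _, eq_sub_of_add_eq' hj⟩⟩
      have s2 := (Finset.card_le_card s1).trans Finset.card_biUnion_le
      refine (Nat.cast_le.2 s2).trans ?_
      rw [Nat.cast_sum, ← Finset.card_univ (α := ι), ← nsmul_eq_mul, ← Finset.sum_const]
      exact Finset.sum_le_sum fun j _ => (le_div_iff₀ hQ).2 (hφ 0 _)
    have h1 : (‖∑ z, F z * g 0 z‖ / Fintype.card (Γ × X)) ^ 2 ≤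
        ∑ h, (Fintype.card X : ℝ)⁻¹ * b h := by
      have := cs_step (φ 0) F (g 0) (hg 0) (hi 0)
      simp only [hb, ← Finset.mul_sum, ← Finset.sum_div]
      rw [div_pow, div_le_iff₀ (by positivity)]
      refine le_of_mul_le_mul_left (this.trans (le_of_eq ?_)) hN
      field_simp
    have h2 := Real.pow_arith_mean_le_arith_mean_pow univ (fun _ : X => (Fintype.card X : ℝ)⁻¹) b
      (fun _ _ => by positivity)
      (by rw [Finset.sum_const, Finset.card_univ, nsmul_eq_mul, mul_inv_cancel₀ hN.ne'])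
      (fun h _ => hb0 h) (2 ^ p)
    have h3 : ∑ h, b h ^ 2 ^ p ≤ ∑ h : X,
        (c + if ∃ j, δ j + φ 0 h = δ i₀ then 1 else 0) := by
      refine Finset.sum_le_sum fun h _ => ?_
      split_ifs with hh
      · linarith only [hc0, pow_le_one₀ (hb0 h) (hb1 h) (n := 2 ^ p)]
      · rw [add_zero]
        exact hb2 h fun j e => hh ⟨j, e⟩
    rw [Finset.sum_add_distrib, Finset.sum_const, Finset.card_univ, nsmul_eq_mul,
      Finset.sum_boole] at h3
    rw [← Finset.mul_sum (f := fun h => b h ^ 2 ^ p)] at h2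
    rw [e0, pow_succ' 2 p, pow_mul]
    refine (pow_le_pow_left₀ (by (clear * - ; positivity)) h1 _).trans (h2.trans ?_)
    refine (mul_le_mul_of_nonneg_left (h3.trans (add_le_add_right hbad _))
      (by positivity)).trans (le_of_eq ?_)
    rw [hc]
    field_simp
    ring

theorem cube [Nonempty Γ] {χ : Γ × X → ℝ} {β Q : ℝ} (hχ : ∀ z, |χ z| ≤ 1) (hB : Bias2 χ β)
    (hβ : 0 ≤ β) (hQ : 0 < Q) {p : ℕ} (φ : Fin p → X →+ X)
    (hφ : ∀ t v, ((univ.filter fun h => φ t h = v).card : ℝ) * Q ≤ Fintype.card X)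
    (g : Fin p → Γ × X → ℂ) (hg : ∀ t z, ‖g t z‖ ≤ 1)
    (hi : ∀ t z h, g t (sh z (φ t h)) = g t z) :
    (‖∑ z, (χ z : ℂ) * ∏ t, g t z‖ / Fintype.card (Γ × X)) ^ 2 ^ p ≤ 2 ^ p * (1 / Q + β) := by
  have k := cube_aux hχ hB hβ hQ p φ hφ g hg hi Unit (fun _ => 0) () fun j hj => absurd rfl hj
  simp only [Finset.univ_unique, Finset.prod_singleton, sh_zero, Fintype.card_unique,
    Nat.cast_one, one_mul] at k
  refine k.trans ?_
  rw [mul_add, mul_one_div]
  gcongr
  linarith only []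

end Pool.Agent.Work.MP_807b32_lc.Q
end

-- merged part: Pool.Agent.Work.MP_807b32_lc.Q.Color
section
/-!
Colouring the segments so that every colour class misses many variables (second moment).
-/

namespace Pool.Agent.Work.MP_807b32_lc.Q

open Finset
open scoped Classical

variable {I J : Type} [Fintype I] [Fintype J]

theorem col_count {p : ℕ} (t : Fin p) (N : Finset J) :
    ∑ κ : J → Fin p, (if ∀ j ∈ N, κ j ≠ t then (1 : ℝ) else 0) =
      p ^ Fintype.card J * (1 - 1 / p) ^ N.card := by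
  have hp : (p : ℝ) ≠ 0 := Nat.cast_ne_zero.2 t.pos.ne'
  have h1 : ∀ κ : J → Fin p, (if ∀ j ∈ N, κ j ≠ t then (1 : ℝ) else 0) =
      ∏ j, if j ∈ N ∧ κ j = t then 0 else 1 := by
    intro κ
    split_ifs with h
    · exact (Finset.prod_eq_one fun j _ => if_neg fun k => h j k.1 k.2).symm
    · push Not at h
      obtain ⟨j, hj⟩ := h
      exact (Finset.prod_eq_zero (f := fun j => if j ∈ N ∧ κ j = t then (0 : ℝ) else 1)
        (mem_univ j) (if_pos hj)).symm
  rw [Finset.sum_congr rfl fun κ _ => h1 κ,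
    ← Fintype.prod_sum (fun j (c : Fin p) => if j ∈ N ∧ c = t then (0 : ℝ) else 1)]
  have h2 : ∀ j, ∑ c : Fin p, (if j ∈ N ∧ c = t then (0 : ℝ) else 1) =
      p * if j ∈ N then 1 - 1 / (p : ℝ) else 1 := by
    intro j
    by_cases hj : j ∈ N
    · have : ∀ c : Fin p, (if j ∈ N ∧ c = t then (0 : ℝ) else 1) =
          1 - if c = t then 1 else 0 := fun c => by
        by_cases e : c = t <;> simp [hj, e]
      rw [Finset.sum_congr rfl fun c _ => this c, Finset.sum_sub_distrib, if_pos hj]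
      simp
      field_simp
    · simp [hj]
  rw [Finset.prod_congr rfl fun j _ => h2 j, Finset.prod_mul_distrib, Finset.prod_const,
    Finset.prod_ite_mem_eq, Finset.prod_const, Finset.card_univ]

theorem exists_coloring (B : J → Finset I) {D L p : ℕ} (hB : ∀ j, (B j).card ≤ D)
    (hL : 2 * (Fintype.card J * D) ≤ L * Fintype.card I) (hL0 : 0 < L) (hp : 0 < p) {η : ℝ}
    (hη : η ≤ (1 - 1 / p) ^ L) (h : 8 * (L * D * p : ℝ) < η * Fintype.card I) :
    ∃ κ : J → Fin p, ∀ t, η * Fintype.card I ≤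
      4 * ((univ.filter fun i => ∀ j, i ∈ B j → κ j ≠ t).card : ℝ) := by
  have hp0 : (0 : ℝ) < p := Nat.cast_pos.2 hp
  have hp1 : (0 : ℝ) ≤ 1 - 1 / p := by
    rw [sub_nonneg, div_le_one hp0]
    exact_mod_cast hp
  have hp2 : (1 : ℝ) - 1 / p ≤ 1 := by
    have : (0 : ℝ) ≤ 1 / p := by positivity
    linarith only [this]
  set N : I → Finset J := fun i => univ.filter fun j => i ∈ B j with hN
  set G : Finset I := univ.filter fun i => (N i).card ≤ L with hG
  have hG1 : (Fintype.card I : ℝ) ≤ 2 * G.card := by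
    have a1 : ∑ i, (N i).card = ∑ j, (B j).card := by
      simp only [hN, Finset.card_filter]
      rw [Finset.sum_comm]
      refine Finset.sum_congr rfl fun j _ => ?_
      rw [← Finset.card_filter]
      simp
    have a2 : ∑ j, (B j).card ≤ Fintype.card J * D := by
      simpa using Finset.sum_le_card_nsmul univ _ D fun j _ => hB j
    have a3 : Gᶜ.card * L ≤ ∑ i, (N i).card := by
      refine le_trans ?_ (Finset.sum_le_sum_of_subset (Finset.subset_univ Gᶜ))
      have := Finset.card_nsmul_le_sum Gᶜ (fun i => (N i).card) L fun i hi => by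
        have := Finset.mem_compl.1 hi
        simp only [hG, Finset.mem_filter, mem_univ, true_and, not_le] at this
        exact this.le
      simpa using this
    have a4 : 2 * Gᶜ.card ≤ Fintype.card I := by
      refine Nat.le_of_mul_le_mul_left ?_ hL0
      nlinarith only [hL, a1, a2, a3]
    have a5 := Finset.card_add_card_compl G
    have : Fintype.card I ≤ 2 * G.card := by omega
    exact_mod_cast this
  set π : I → ℝ := fun i => (1 - 1 / p) ^ (N i).card with hπ
  have hπ0 : ∀ i, 0 ≤ π i := fun i => pow_nonneg hp1 _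
  set μ : ℝ := ∑ i ∈ G, π i with hμ
  have hη0 : 0 < η := by
    by_contra k
    have : η * Fintype.card I ≤ 0 :=
      mul_nonpos_of_nonpos_of_nonneg (not_lt.1 k) (Nat.cast_nonneg _)
    have : (0 : ℝ) ≤ 8 * (L * D * p) := by (clear * - hL0 hp; positivity)
    linarith
  have hμ1 : η * Fintype.card I ≤ 2 * μ := by
    have := Finset.card_nsmul_le_sum G π η fun i hi =>
      hη.trans (pow_le_pow_of_le_one hp1 hp2 (Finset.mem_filter.1 hi).2)
    rw [nsmul_eq_mul] at this
    nlinarith only [this, hG1, hη0]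
  set Y : (J → Fin p) → Fin p → I → ℝ := fun κ t i => if ∀ j ∈ N i, κ j ≠ t then 1 else 0 with hY
  set P : ℝ := p ^ Fintype.card J with hP
  have hP0 : 0 < P := by positivity
  have hE : ∀ t i, ∑ κ, Y κ t i = P * π i := fun t i => col_count t (N i)
  have hE2 : ∀ t i, ∀ i', ∑ κ, Y κ t i * Y κ t i' ≤
      P * (π i * π i') + if Disjoint (N i) (N i') then 0 else P * π i := by
    intro t i i'
    split_ifs with hd
    · have := col_count t (N i ∪ N i')
      rw [Finset.card_union_of_disjoint hd, pow_add] at this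
      rw [add_zero, ← this]
      refine le_of_eq (Finset.sum_congr rfl fun κ _ => ?_)
      simp only [hY, Finset.forall_mem_union]
      by_cases e1 : ∀ j ∈ N i, κ j ≠ t
      · by_cases e2 : ∀ j ∈ N i', κ j ≠ t
        · rw [if_pos e1, if_pos e2, if_pos ⟨e1, e2⟩, mul_one]
        · rw [if_neg e2, mul_zero]
          exact (if_neg fun k => e2 k.2).symm
      · rw [if_neg e1, zero_mul]
        exact (if_neg fun k => e1 k.1).symm
    · have : ∑ κ, Y κ t i * Y κ t i' ≤ ∑ κ, Y κ t i := Finset.sum_le_sum fun κ _ => by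
        simp only [hY]
        split_ifs <;> simp
      have := mul_nonneg hP0.le (mul_nonneg (hπ0 i) (hπ0 i'))
      linarith [hE t i]
  have hcnt : ∀ i ∈ G, ((G.filter fun i' => ¬ Disjoint (N i) (N i')).card : ℝ) ≤ L * D := by
    intro i hi
    have s1 : (G.filter fun i' => ¬ Disjoint (N i) (N i')) ⊆ (N i).biUnion B := by
      intro i' hi'
      obtain ⟨j, h1, h2⟩ := Finset.not_disjoint_iff.1 (Finset.mem_filter.1 hi').2
      exact Finset.mem_biUnion.2 ⟨j, h1, (Finset.mem_filter.1 h2).2⟩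
    have s2 := (Finset.card_le_card s1).trans (Finset.card_biUnion_le_card_mul _ _ D fun j _ => hB j)
    have s3 := s2.trans (Nat.mul_le_mul_right D (Finset.mem_filter.1 hi).2)
    exact_mod_cast s3
  have hV : ∀ t, ∑ κ, (∑ i ∈ G, Y κ t i - μ) ^ 2 ≤ P * (L * D * μ) := by
    intro t
    have b1 : ∑ κ, ∑ i ∈ G, Y κ t i = P * μ := by
      rw [Finset.sum_comm, Finset.sum_congr rfl fun i _ => hE t i, ← Finset.mul_sum]
    have b2 : ∑ κ, (∑ i ∈ G, Y κ t i) ^ 2 ≤ P * μ ^ 2 + P * (L * D * μ) := by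
      simp only [sq, Finset.sum_mul_sum]
      rw [Finset.sum_comm, hμ, Finset.sum_mul_sum, Finset.mul_sum, Finset.mul_sum, Finset.mul_sum,
        ← Finset.sum_add_distrib]
      refine Finset.sum_le_sum fun i hi => ?_
      rw [Finset.sum_comm]
      refine (Finset.sum_le_sum fun i' _ => hE2 t i i').trans ?_
      rw [Finset.sum_add_distrib, Finset.mul_sum, Finset.sum_ite, Finset.sum_const_zero, zero_add,
        Finset.sum_const, nsmul_eq_mul]
      have := mul_le_mul_of_nonneg_right (hcnt i hi) (mul_nonneg hP0.le (hπ0 i))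
      linarith only [this]
    have b3 : ∑ κ : J → Fin p, μ ^ 2 = P * μ ^ 2 := by
      simp [hP]
    have b4 : ∑ κ, (∑ i ∈ G, Y κ t i - μ) ^ 2 = ∑ κ, (∑ i ∈ G, Y κ t i) ^ 2 -
        2 * μ * ∑ κ, ∑ i ∈ G, Y κ t i + ∑ κ : J → Fin p, μ ^ 2 := by
      rw [Finset.mul_sum, ← Finset.sum_sub_distrib, ← Finset.sum_add_distrib]
      exact Finset.sum_congr rfl fun κ _ => by ring
    rw [b4, b1, b3]
    linarith only [b2]
  have : Nonempty (J → Fin p) := ⟨fun _ => ⟨0, hp⟩⟩
  obtain ⟨κ, -, hκ⟩ := Finset.exists_le_of_sum_le (s := (univ : Finset (J → Fin p)))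
    Finset.univ_nonempty (f := fun κ => ∑ t, (∑ i ∈ G, Y κ t i - μ) ^ 2)
    (g := fun _ => p * (L * D * μ)) (by
      rw [Finset.sum_comm]
      refine (Finset.sum_le_sum fun t _ => hV t).trans (le_of_eq ?_)
      simp [hP]
      ring)
  refine ⟨κ, fun t => ?_⟩
  have c1 := (Finset.single_le_sum (f := fun t => (∑ i ∈ G, Y κ t i - μ) ^ 2)
    (fun _ _ => sq_nonneg _) (mem_univ t)).trans hκ
  have c2 : ∑ i ∈ G, Y κ t i ≤ ((univ.filter fun i => ∀ j, i ∈ B j → κ j ≠ t).card : ℝ) := by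
    simp only [hY]
    rw [Finset.sum_boole, Nat.cast_le]
    refine Finset.card_le_card fun i hi => Finset.mem_filter.2 ⟨mem_univ _, fun j hj => ?_⟩
    exact (Finset.mem_filter.1 hi).2 j (Finset.mem_filter.2 ⟨mem_univ _, hj⟩)
  have c3 : (0 : ℝ) ≤ L * D * p := by (clear * - hL0 hp; positivity)
  have c4 : μ ≤ 2 * ∑ i ∈ G, Y κ t i := by
    by_contra k
    nlinarith only [c1, h, hμ1, c3, k]
  linarith only [hμ1, c2, c4]

end Pool.Agent.Work.MP_807b32_lc.Q
end

-- merged part: Pool.Agent.Work.MP_807b32_lc.Q.Core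
section
/-!
Correlation bounds: products of juntas, quantum programs, and the hard function on words.
-/

namespace Pool.Agent.Work.MP_807b32_lc.Q

open Finset Matrix
open scoped Classical

section
variable {Γ I A : Type} [Fintype Γ] [Fintype I] [Fintype A] [DecidableEq I] [AddCommGroup A]

/-- Projection to the coordinates in `R`. -/
def prj (A : Type) [AddCommGroup A] (R : Finset I) : (I → A) →+ (I → A) where
  toFun h i := if i ∈ R then h i else 0
  map_zero' := funext fun i => by simp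
  map_add' h k := funext fun i => by by_cases hi : i ∈ R <;> simp [hi]

theorem prj_count (R : Finset I) {m : ℕ} (hm : m ≤ R.card) (v : I → A) :
    ((univ.filter fun h => prj A R h = v).card : ℝ) * (Fintype.card A : ℝ) ^ m ≤
      Fintype.card (I → A) := by
  have h1 : (univ.filter fun h => prj A R h = v) ⊆
      Fintype.piFinset fun i => if i ∈ R then {v i} else univ := by
    intro h hh
    rw [Fintype.mem_piFinset]
    intro i
    split_ifs with hi
    · rw [Finset.mem_singleton, ← (Finset.mem_filter.1 hh).2]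
      exact (if_pos hi).symm
    · exact mem_univ _
  have h2 := Finset.card_le_card h1
  rw [Fintype.card_piFinset] at h2
  have h3 : (∏ i, (if i ∈ R then {v i} else (univ : Finset A)).card) * Fintype.card A ^ R.card =
      Fintype.card (I → A) := by
    rw [← Finset.prod_const, ← Finset.prod_ite_mem_eq R (fun _ => Fintype.card A),
      ← Finset.prod_mul_distrib, Fintype.card_pi]
    refine Finset.prod_congr rfl fun i _ => ?_
    split_ifs <;> simp
  have h4 := (Nat.mul_le_mul h2 (Nat.pow_le_pow_right (Fintype.card_pos (α := A)) hm)).trans h3.le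
  exact_mod_cast h4

theorem small_of_bias [Nonempty Γ] {χ : Γ × (I → A) → ℝ} {β η ε : ℝ} (hχ : ∀ z, |χ z| ≤ 1)
    (hB : Bias2 χ β) (hβ : 0 ≤ β) {r D L p m : ℕ}
    (hL : 2 * (r * D) ≤ L * Fintype.card I) (hL0 : 0 < L) (hp : 0 < p)
    (hη : η ≤ (1 - 1 / p) ^ L) (h : 8 * (L * D * p : ℝ) < η * Fintype.card I)
    (hm : 4 * (m : ℝ) ≤ η * Fintype.card I) (hε : 0 ≤ ε)
    (he : 2 ^ p * (1 / (Fintype.card A : ℝ) ^ m + β) ≤ ε ^ 2 ^ p) :
    Small D r (fun z => (χ z : ℂ)) (ε * Fintype.card (Γ × (I → A))) := by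
  intro g B k1 k2 k3
  obtain ⟨κ, hκ⟩ := exists_coloring B k1 (by rwa [Fintype.card_fin]) hL0 hp hη h
  have hA : (0 : ℝ) < Fintype.card A := Nat.cast_pos.2 Fintype.card_pos
  have hO : (0 : ℝ) < Fintype.card (Γ × (I → A)) := Nat.cast_pos.2 Fintype.card_pos
  have k := cube hχ hB hβ (pow_pos hA m)
    (fun t => prj A (univ.filter fun i => ∀ j, i ∈ B j → κ j ≠ t))
    (fun t v => by
      convert prj_count (A := A) _ (m := m) ?_ v
      have := hm.trans (hκ t)
      have h4 : (m : ℝ) ≤ _ := le_of_mul_le_mul_left this (by norm_num)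
      convert Nat.cast_le.1 h4)
    (fun t z => ∏ j ∈ univ.filter (fun j => κ j = t), g j z)
    (fun t z => by
      rw [norm_prod]
      exact Finset.prod_le_one (fun _ _ => norm_nonneg _) fun j _ => k3 j z)
    (fun t z h => Finset.prod_congr rfl fun j hj => k2 j _ _ rfl fun i hi => by
      have : i ∉ univ.filter fun i => ∀ j, i ∈ B j → κ j ≠ t := fun e =>
        (Finset.mem_filter.1 e).2 j hi (Finset.mem_filter.1 hj).2
      exact (congrArg (z.2 i + ·) (if_neg this)).trans (add_zero _))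
  simp only [Finset.prod_fiberwise] at k
  rw [← div_le_iff₀ hO]
  exact le_of_pow_le_pow_left₀ (pow_ne_zero p two_ne_zero) hε (k.trans he)

end

section
variable {V A W E : Type} [Fintype W] [DecidableEq W] [Fintype E]

omit [DecidableEq W] in
theorem state_eq (P : QP V A W E) (x : V → A) (t : ℕ) :
    P.state x t = ev (P.kraus x) 0 (Matrix.of fun w w' => P.init w * star (P.init w')) t := by
  induction t with
  | zero => rfl
  | succ t ih => rw [QP.state, ev, ih, zero_add]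

variable {Γ I : Type} [Fintype Γ] [Fintype I] [Fintype A] [DecidableEq I] [Zero A]

theorem prog_corr {P : QP V A W E} (hP : P.Valid) {f : (V → A) → Prop} {T r d : ℕ} {γ ε : ℝ}
    (hf : P.Computes f T (1 / 2 + γ)) (ι : Γ × (I → A) → V → A) (π : V → I)
    (hι : ∀ v z z', z.1 = z'.1 → z.2 (π v) = z'.2 (π v) → ι z v = ι z' v) (hT : T ≤ r * d)
    (hs : Small (2 * d) r (fun z => ((if f (ι z) then -1 else 1 : ℝ) : ℂ)) ε) :
    γ * Fintype.card (Γ × (I → A)) ≤
      2 * Fintype.card W * ((Fintype.card W : ℝ) ^ 2 * wt I (2 * d)) ^ r * ε := by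
  have h0 : ∀ w, ‖P.init w‖ ≤ 1 := fun w => by
    have := Finset.single_le_sum (f := fun w => ‖P.init w‖ ^ 2) (fun _ _ => sq_nonneg _)
      (mem_univ w)
    rw [hP.1] at this
    exact (sq_le_one_iff₀ (norm_nonneg _)).1 this
  have hW : (1 : ℝ) ≤ Fintype.card W := by
    rcases isEmpty_or_nonempty W with h | h
    · simpa using hP.1
    · exact_mod_cast Fintype.card_pos
  set χ : Γ × (I → A) → ℝ := fun z => if f (ι z) then -1 else 1 with hχ
  set R := ((Fintype.card W : ℝ) ^ 2 * wt I (2 * d)) ^ r with hR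
  have hR1 : 1 ≤ R := one_le_pow₀ (one_le_mul_of_one_le_of_one_le (one_le_pow₀ hW) (one_le_wt _))
  have h1 := chain (K := fun z => P.kraus (ι z)) (v := fun t w => π (P.var t w))
    (fun z t => hP.2 _ t) (fun t e w' w z z' k k' => by
      simp only [QP.kraus, Matrix.of_apply]
      rw [hι _ z z' k (k' _ (Finset.mem_singleton_self _))])
    (ρ := Matrix.of fun w w' => P.init w * star (P.init w')) (fun c d => by
      rw [Matrix.of_apply, norm_mul, norm_star]
      exact mul_le_one₀ (h0 _) (norm_nonneg _) (h0 _)) T d r _ hs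
  simp only [min_eq_right hT, ← state_eq] at h1
  have h2 := hs (fun _ _ => 1) (fun _ => ∅) (fun _ => Nat.zero_le _) (fun _ _ _ _ _ => rfl)
    fun _ _ => norm_one.le
  simp only [Finset.prod_const_one, mul_one] at h2
  rw [← Complex.ofReal_sum, Complex.norm_real, Real.norm_eq_abs] at h2
  have hε : 0 ≤ ε := (abs_nonneg _).trans h2
  have h3 : γ * Fintype.card (Γ × (I → A)) ≤ ∑ z, (χ z / 2 - χ z * P.prob (ι z) T) := by
    rw [mul_comm, ← nsmul_eq_mul, ← Finset.card_univ]
    refine Finset.card_nsmul_le_sum _ _ _ fun z _ => ?_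
    by_cases e : f (ι z)
    · have := (hf _).1 e
      simp only [hχ, if_pos e]
      linarith only [this]
    · have := (hf _).2 e
      simp only [hχ, if_neg e]
      linarith only [this]
  have h4 : -∑ z, χ z * P.prob (ι z) T ≤ Fintype.card W * (R * ε) := by
    have e : ∑ z, χ z * P.prob (ι z) T =
        ∑ w ∈ P.accept, (∑ z, (χ z : ℂ) * P.state (ι z) T w w).re := by
      simp only [QP.prob, Finset.mul_sum, Complex.re_sum, Complex.re_ofReal_mul]
      exact Finset.sum_comm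
    rw [e, ← Finset.sum_neg_distrib]
    refine (Finset.sum_le_card_nsmul _ _ (R * ε) fun w _ => (neg_le_abs _).trans
      ((Complex.abs_re_le_norm _).trans (h1 w w))).trans ?_
    rw [nsmul_eq_mul]
    exact mul_le_mul_of_nonneg_right (Nat.cast_le.2 (Finset.card_le_univ _)) (by (clear * - hR1 hε; positivity))
  rw [Finset.sum_sub_distrib, ← Finset.sum_div] at h3
  have h5 : ε ≤ Fintype.card W * (R * ε) := by
    rw [← mul_assoc]
    exact le_mul_of_one_le_left hε (one_le_mul_of_one_le_of_one_le hW hR1)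
  linarith only [h2, hε, h3, h4, h5, le_abs_self (∑ z, χ z)]

end

section
open TS

variable {n b : ℕ}

/-- Words to bits. -/
def flat (n b : ℕ) : (Fin n → Fin b → Bool) ≃ (Fin (n * b) → Bool) where
  toFun x i := x i.divNat i.modNat
  invFun y i k := y (finProdFinEquiv (i, k))
  left_inv x := by
    funext i k
    have := finProdFinEquiv.symm_apply_apply (i, k)
    rw [finProdFinEquiv_symm_apply, Prod.mk.injEq] at this
    simp only [this.1, this.2]
  right_inv y := funext fun i => congrArg y (finProdFinEquiv.apply_symm_apply i)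

/-- The input with blocks `x`, `y`, `c`. -/
def inpW (c : Fin (n * b) → Bool) (z : (Fin (n * b) → Bool) × (Fin n → Fin b → Bool))
    (v : Fin 3 × Fin n) : Fin b → Bool :=
  ![z.2, (flat n b).symm z.1, (flat n b).symm c] v.1 v.2

theorem hardW_iff (c : Fin (n * b) → Bool) (z : (Fin (n * b) → Bool) × (Fin n → Fin b → Bool)) :
    HardW n b (inpW c z) ↔ Hard (n * b) (inp c (z.1, flat n b z.2)) := by
  refine iff_of_eq (congrArg (Hard (n * b)) (funext fun v => ?_))
  obtain ⟨a, i⟩ := v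
  fin_cases a
  · rfl
  · exact congrFun ((flat n b).apply_symm_apply z.1) i
  · exact congrFun ((flat n b).apply_symm_apply c) i

theorem exists_bias (N : ℕ) (hn : 1 ≤ N) : ∃ c : Fin N → Bool,
    ∀ (ι : Type) [Fintype ι] (δ : ι → Fin N → Bool) (i₀ : ι), (∀ j, j ≠ i₀ → δ j ≠ δ i₀) →
      |∑ z : Om (Fin N → Bool) (Fin N), ∏ i, (if Hard N (inp c (shift z (δ i))) then (-1 : ℝ)
        else 1)| ≤ 2 * Fintype.card ι * Fintype.card (Fin N → Bool) := by
  have : Fact (Nat.Prime 2) := ⟨Nat.prime_two⟩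
  let pb : PowerBasis (ZMod 2) (GaloisField 2 N) :=
    Field.powerBasisOfFiniteOfSeparable (ZMod 2) (GaloisField 2 N)
  have hdim : pb.dim = N := by
    rw [← pb.finrank, GaloisField.finrank 2 (by omega)]
  let e : Module.Basis (Fin N) (ZMod 2) (GaloisField 2 N) := pb.basis.reindex (finCongr hdim)
  have he : ∀ i, e i = pb.gen ^ (i : ℕ) := by
    intro i
    simp [e]
  have hc := inv_monic_eq (minpoly (ZMod 2) pb.gen) (minpoly.monic pb.isIntegral_gen)
    (pb.natDegree_minpoly.trans hdim)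
  refine ⟨fun i : Fin N => decide ((minpoly (ZMod 2) pb.gen).coeff i = 1), fun ι _ δ i₀ hδ => ?_⟩
  simp only [inv_hard_iff e pb.gen he _ hc]
  have h1 : ∀ z : Om (Fin N → Bool) (Fin N),
      ∏ i, (if invF e (shift z (δ i)) then (-1 : ℝ) else 1) =
        invSgn (ip e z.1 (∑ i, (emb e z.2 + emb e (δ i))⁻¹)) := by
    intro z
    rw [inv_ip_sum, invSgn_sum]
    refine Finset.prod_congr rfl (fun i _ => ?_)
    rw [inv_chi]
    simp only [shift, inv_emb_xor]
  rw [abs_of_nonneg]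
  · exact bias_invF e ι δ i₀ hδ
  · simp only [h1]
    rw [inv_sum_pairs e (fun x => ∑ i, (emb e x + emb e (δ i))⁻¹)]
    (clear * - ; positivity)

theorem exists_bias2 (hn : 1 ≤ n * b) : ∃ c : Fin (n * b) → Bool,
    Bias2 (fun z => if HardW n b (inpW c z) then (-1 : ℝ) else 1) (2 / 2 ^ (n * b)) := by
  obtain ⟨c, hc⟩ := exists_bias (n * b) hn
  refine ⟨c, fun ι _ δ i₀ hδ => ?_⟩
  have k := hc ι (fun i => flat n b (δ i)) i₀ fun j hj e => hδ j hj ((flat n b).injective e)
  rw [← Fintype.sum_equiv ((Equiv.refl _).prodCongr (flat n b))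
    (fun z => ∏ i, if HardW n b (inpW c (sh z (δ i))) then (-1 : ℝ) else 1) _
    fun z => Finset.prod_congr rfl fun i _ => if_congr (hardW_iff c _) rfl rfl] at k
  refine k.trans (le_of_eq ?_)
  rw [Fintype.card_prod, Fintype.card_congr (flat n b)]
  simp
  field_simp

end

end Pool.Agent.Work.MP_807b32_lc.Q
end

-- merged part: Pool.Agent.Work.MP_807b32_lc.Q.Main
section
/-!
Choice of the parameters.
-/

namespace Pool.Agent.Work.MP_807b32_lc.Q

open Finset
open scoped Classical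

theorem arith_fin {u s n b S c m : ℕ} (hu : 2 ≤ u) (hs : s ≤ u) (hn : 1 ≤ n)
    (hm : n ≤ 4 * u ^ 4 * (m + 1))
    (h : b * m ≤ (c + 2 + S + 2 * u ^ 16 * S + 32 * s ^ 3 * n + 3 * n) * u ^ 2 + 2 * s + 2) :
    n * b ≤ u ^ 30 * (n + b + S + c) := by
  obtain ⟨Z, hZ⟩ : ∃ Z, Z = n + b + S + c := ⟨_, rfl⟩
  rw [← hZ]
  have hp : ∀ {i j : ℕ}, i ≤ j → u ^ i ≤ u ^ j := fun h => Nat.pow_le_pow_right (by omega) h
  have h1 : Z ≤ u ^ 16 * Z := Nat.le_mul_of_pos_left _ (by positivity)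
  have h2 : u ^ 16 * S ≤ u ^ 16 * Z := Nat.mul_le_mul_left _ (by omega)
  have h3 : s ^ 3 * n ≤ u ^ 16 * Z :=
    Nat.mul_le_mul ((Nat.pow_le_pow_left hs 3).trans (hp (by norm_num))) (by omega)
  have h4 : c + 2 + S + 2 * u ^ 16 * S + 32 * s ^ 3 * n + 3 * n ≤ 41 * (u ^ 16 * Z) := by
    rw [mul_assoc, mul_assoc]
    (clear * - hn hZ h1 h2 h3; omega)
  have h5 : Z ≤ u ^ 18 * Z := Nat.le_mul_of_pos_left _ (by positivity)
  have h6 : s ≤ u ^ 18 * Z :=
    (hs.trans ((pow_one u).ge.trans (hp (by norm_num)))).trans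
      (Nat.le_mul_of_pos_right _ (by omega))
  have h7 := Nat.mul_le_mul_right (u ^ 2) h4
  rw [show 41 * (u ^ 16 * Z) * u ^ 2 = 41 * (u ^ 18 * Z) by ring] at h7
  have h8 : b * m + b ≤ 46 * (u ^ 18 * Z) := by (clear * - hn h hZ h5 h6 h7; omega)
  have h9 : 184 ≤ u ^ 8 := le_trans (by norm_num) (Nat.pow_le_pow_left hu 8)
  calc n * b ≤ 4 * u ^ 4 * (m + 1) * b := Nat.mul_le_mul_right _ hm
    _ = 4 * u ^ 4 * (b * m + b) := by ring
    _ ≤ 4 * u ^ 4 * (46 * (u ^ 18 * Z)) := Nat.mul_le_mul_left _ h8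
    _ = 184 * (u ^ 22 * Z) := by ring
    _ ≤ u ^ 8 * (u ^ 22 * Z) := Nat.mul_le_mul_right _ h9
    _ = u ^ 30 * Z := by ring

theorem eta_le {s : ℕ} (hs : 0 < s) :
    (1 / 2 : ℝ) ^ (4 * s) ≤ (1 - 1 / ((2 * s : ℕ) : ℝ)) ^ (4 * s ^ 2) := by
  have h0 : (1 : ℝ) ≤ s := by exact_mod_cast hs
  have h2 : 1 / ((2 * s : ℕ) : ℝ) ≤ 1 := by
    rw [div_le_one (by positivity)]
    push_cast
    linarith
  have h1 := one_add_mul_le_pow (a := -(1 / ((2 * s : ℕ) : ℝ))) (by linarith) s
  rw [show 4 * s ^ 2 = s * (4 * s) by ring, pow_mul _ s]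
  refine pow_le_pow_left₀ (by norm_num) (le_trans (le_of_eq ?_) (h1.trans_eq rfl)) _
  push_cast
  field_simp
  ring

theorem wt_pow_le {n D r a : ℕ} (hr : r = 2 ^ a) :
    wt (Fin n) D ^ r ≤ 2 ^ (a * (r * D) + 3 * n) := by
  have h0 : (1 : ℝ) ≤ r := by
    rw [hr]
    exact_mod_cast Nat.one_le_two_pow
  have h1 : (1 + 2 / r : ℝ) ^ r ≤ 2 ^ 3 := by
    refine (pow_le_pow_left₀ (by positivity) (by linarith only [Real.add_one_le_exp (2 / r : ℝ)] :
      (1 + 2 / r : ℝ) ≤ Real.exp (2 / r)) r).trans ?_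
    rw [← Real.exp_nat_mul, mul_div_cancel₀ _ (by linarith), ← one_add_one_eq_two, Real.exp_add]
    nlinarith only [Real.exp_one_lt_d9, Real.exp_pos 1]
  refine (pow_le_pow_left₀ (zero_le_one.trans (one_le_wt D)) (wt_le D h0) r).trans ?_
  rw [mul_pow, ← pow_mul, ← pow_mul, Fintype.card_fin, mul_comm n r, pow_mul _ r n, pow_add,
    pow_mul _ a, pow_mul _ 3, mul_comm D r]
  refine mul_le_mul (le_of_eq ?_) (pow_le_pow_left₀ (by positivity) h1 n) (by positivity)
    (by positivity)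
  rw [hr]
  push_cast
  rfl

theorem main (n b k D : ℕ) (hD : 2 ≤ D) (W E : Type) [Fintype W] [DecidableEq W] [Fintype E]
    (P : QP (Fin 3 × Fin n) (Fin b → Bool) W E) (T : ℕ) (hP : P.Valid) (hT : T ≤ k * n)
    (hf : P.Computes (HardW n b) T (1 / 2 + 1 / D)) :
    n * b ≤ (2 ^ 30) ^ (Nat.sqrt k + 1) *
      (n + b + Nat.clog 2 (Fintype.card W) + Nat.clog 2 D) := by
  obtain ⟨s, hs⟩ : ∃ s, s = Nat.sqrt k + 1 := ⟨_, rfl⟩
  obtain ⟨u, hu⟩ : ∃ u, u = 2 ^ s := ⟨_, rfl⟩
  obtain ⟨S, hS⟩ : ∃ S, S = Nat.clog 2 (Fintype.card W) := ⟨_, rfl⟩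
  obtain ⟨c, hc⟩ : ∃ c, c = Nat.clog 2 D := ⟨_, rfl⟩
  rw [← hs, ← hS, ← hc, ← pow_mul, mul_comm 30 s, pow_mul, ← hu]
  have hs0 : 0 < s := by omega
  have hk : k + 1 ≤ s ^ 2 := hs ▸ Nat.lt_succ_sqrt' k
  have hsu : s < u := hu ▸ Nat.lt_two_pow_self
  have hu2 : 2 ≤ u := hu ▸ Nat.le_self_pow hs0.ne' 2
  rcases Nat.eq_zero_or_pos (n * b) with h0 | h0
  · omega
  rcases lt_or_ge n (u ^ 16) with h1 | h1
  · exact Nat.mul_le_mul (h1.le.trans (Nat.pow_le_pow_right (by omega) (by norm_num))) (by omega)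
  have hr0 : 0 < u ^ 16 := by positivity
  obtain ⟨m, hm⟩ : ∃ m, m = n / (4 * u ^ 4) := ⟨_, rfl⟩
  refine arith_fin (m := m) hu2 hsu.le (by omega)
    (hm ▸ (Nat.lt_mul_div_succ n (by positivity)).le) ?_
  by_contra hcon
  obtain ⟨X, hX⟩ : ∃ X, X = c + 1 + S + 2 * u ^ 16 * S + 32 * s ^ 3 * n + 3 * n := ⟨_, rfl⟩
  have hbm : (X + 1) * 2 ^ (2 * s) + 2 * s + 2 ≤ b * m := by
    rw [mul_comm 2 s, pow_mul, ← hu, hX, mul_comm s 2]
    refine le_trans (le_of_eq ?_) (not_le.1 hcon).le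
    ring
  obtain ⟨d, hd⟩ : ∃ d, d = T / u ^ 16 + 1 := ⟨_, rfl⟩
  have hd1 : T ≤ u ^ 16 * d := hd ▸ (Nat.lt_mul_div_succ T hr0).le
  have hd2 : u ^ 16 * (2 * d) ≤ 2 * (s ^ 2 * n) := by
    have e1 := Nat.mul_div_le T (u ^ 16)
    have e2 := Nat.mul_le_mul_right n hk
    rw [hd, mul_left_comm, mul_add, mul_one]
    rw [add_mul, one_mul] at e2
    omega
  obtain ⟨c₀, hc₀⟩ := exists_bias2 h0
  have hη : (1 / 2 : ℝ) ^ (4 * s) = 1 / (u : ℝ) ^ 4 := by
    rw [hu, one_div_pow, mul_comm, pow_mul]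
    push_cast
    rfl
  have hu0 : (0 : ℝ) < (u : ℝ) ^ 4 := by positivity
  have hsm := small_of_bias (η := 1 / (u : ℝ) ^ 4) (ε := (1 / 2) ^ (X + 1)) (r := u ^ 16)
    (D := 2 * d) (L := 4 * s ^ 2) (p := 2 * s) (m := m)
    (fun z => by split_ifs <;> simp) hc₀ (by positivity)
    (by rw [Fintype.card_fin, mul_assoc]; omega) (by positivity) (by omega) (hη ▸ eta_le hs0)
    (by
      rw [Fintype.card_fin, div_mul_eq_mul_div, one_mul, lt_div_iff₀ hu0]
      have e1 : 8 * (4 * s ^ 2 * (2 * d) * (2 * s)) * u ^ 4 < n := by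
        refine Nat.lt_of_mul_lt_mul_left (a := u ^ 16) ?_
        have e2 : 128 ≤ u ^ 7 := le_trans (by norm_num) (Nat.pow_le_pow_left hu2 7)
        have e3 : s ^ 5 < u ^ 5 := Nat.pow_lt_pow_left hsu (by norm_num)
        calc u ^ 16 * (8 * (4 * s ^ 2 * (2 * d) * (2 * s)) * u ^ 4)
            = 64 * s ^ 3 * u ^ 4 * (u ^ 16 * (2 * d)) := by ring
          _ ≤ 64 * s ^ 3 * u ^ 4 * (2 * (s ^ 2 * n)) := Nat.mul_le_mul_left _ hd2
          _ = 128 * s ^ 5 * (u ^ 4 * n) := by ring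
          _ < u ^ 7 * u ^ 5 * (u ^ 4 * n) := Nat.mul_lt_mul_of_pos_right
            (Nat.mul_lt_mul_of_le_of_lt e2 e3 (by positivity)) (Nat.mul_pos (by positivity) (by omega))
          _ = u ^ 16 * n := by ring
      exact_mod_cast e1)
    (by
      rw [Fintype.card_fin, div_mul_eq_mul_div, one_mul, le_div_iff₀ hu0]
      have e1 : 4 * m * u ^ 4 ≤ n := by
        rw [mul_right_comm, hm]
        exact Nat.mul_div_le _ _
      exact_mod_cast e1)
    (by positivity)
    (by
      have e1 : b * m ≤ n * b := by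
        rw [mul_comm, hm]
        exact Nat.mul_le_mul_right _ (Nat.div_le_self _ _)
      have e2 : (2 : ℝ) ^ (b * m) ≤ 2 ^ (n * b) := pow_le_pow_right₀ one_le_two e1
      have e3 : (2 : ℝ) ^ _ ≤ 2 ^ (b * m) := pow_le_pow_right₀ one_le_two hbm
      have e4 : (2 : ℝ) / 2 ^ (n * b) ≤ 2 / 2 ^ (b * m) := by gcongr
      rw [Fintype.card_fun, Fintype.card_bool, Fintype.card_fin, ← pow_mul, one_div_pow,
        le_div_iff₀ (by positivity)]
      push_cast
      rw [← pow_mul]
      rw [pow_add, pow_add] at e3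
      calc _ ≤ (2 : ℝ) ^ (2 * s) * (1 / 2 ^ (b * m) + 2 / 2 ^ (b * m)) *
            2 ^ ((X + 1) * 2 ^ (2 * s)) := by gcongr
        _ = (2 ^ ((X + 1) * 2 ^ (2 * s)) * 2 ^ (2 * s) * 3) / 2 ^ (b * m) := by ring
        _ ≤ 1 := by
          rw [div_le_one (by positivity)]
          exact le_trans (by gcongr; norm_num) e3)
  have hfin := prog_corr hP hf (inpW c₀) Prod.snd (fun v z z' e1 e2 => by
    obtain ⟨a, i⟩ := v
    fin_cases a
    · exact e2
    · exact congrArg (fun y => (flat n b).symm y i) e1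
    · rfl) hd1 hsm
  have hO : (0 : ℝ) < Fintype.card ((Fin (n * b) → Bool) × (Fin n → Fin b → Bool)) :=
    Nat.cast_pos.2 Fintype.card_pos
  rw [← mul_assoc] at hfin
  replace hfin := le_of_mul_le_mul_right hfin hO
  have hW : (Fintype.card W : ℝ) ≤ 2 ^ S := by
    exact_mod_cast hS ▸ Nat.le_pow_clog one_lt_two _
  have hDc : (D : ℝ) ≤ 2 ^ c := by exact_mod_cast hc ▸ Nat.le_pow_clog one_lt_two _
  have hwt : wt (Fin n) (2 * d) ^ u ^ 16 ≤ 2 ^ (32 * s ^ 3 * n + 3 * n) := by
    refine (wt_pow_le (a := s * 16) (by rw [hu, pow_mul])).trans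
      (pow_le_pow_right₀ one_le_two (Nat.add_le_add_right ?_ _))
    exact (Nat.mul_le_mul_left _ hd2).trans (le_of_eq (by ring))
  have hD0 : (0 : ℝ) < D := by positivity
  rw [div_le_iff₀ hD0, mul_pow] at hfin
  have := one_le_wt (I := Fin n) (2 * d)
  have hlast := hfin.trans (show _ ≤ 2 * 2 ^ S * (((2 ^ S) ^ 2) ^ u ^ 16 *
    2 ^ (32 * s ^ 3 * n + 3 * n)) * (1 / 2) ^ (X + 1) * (2 : ℝ) ^ c by gcongr)
  have e : 2 * 2 ^ S * (((2 ^ S) ^ 2) ^ u ^ 16 * 2 ^ (32 * s ^ 3 * n + 3 * n)) *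
      (1 / 2) ^ (X + 1) * (2 : ℝ) ^ c = 2 ^ X * (1 / 2) ^ (X + 1) := by
    rw [hX]
    ring
  rw [e, pow_succ, ← mul_assoc, ← mul_pow] at hlast
  norm_num at hlast

end Pool.Agent.Work.MP_807b32_lc.Q
end
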